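import Pool.Agent.DF26.Fin

/-!
# Approximate form of Feit's conjecture for all finite groups

Let `χ` be an arbitrary irreducible complex character of a finite group `G` (the character of `ρ`),
and let `n = c(χ)` be its conductor. There is a divisor `d` of `n`, coprime to `n / d`, with
`n ^ 4 ≤ d ^ 5`, such that some `g ∈ G` has an eigenvalue on `χ` whose order is divisible by `d`;
in particular `G` has an element of order `d`. Moreover `(n / d) ^ 5` is at most the part of `n`
composed of the primes whose Sylow subgroups in `G` are not cyclic.
-/

set_option autoImplicit false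

namespace Pool.Agent.Results.MP_79850a_al.ApproximateFeit

open Pool.Agent.FV86 Pool.Agent.CS26

theorem result {G V : Type*} [Group G] [Finite G] [AddCommGroup V] [Module ℂ V]
    [FiniteDimensional ℂ V] (ρ : Representation ℂ G V) [ρ.IsIrreducible] :
    ∃ d : ℕ, d ∣ conductor ρ.character ∧ d.Coprime (conductor ρ.character / d) ∧
      (conductor ρ.character / d) ^ 5 ≤ ∏ p ∈ badPrimes G (conductor ρ.character),
        p ^ (conductor ρ.character).factorization p ∧
      conductor ρ.character ^ 4 ≤ d ^ 5 ∧
      (∃ g z, Module.End.HasEigenvalue (ρ g) z ∧ d ∣ orderOf z) ∧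
      ∃ g : G, orderOf g = d :=
  Pool.Agent.DF26.feit_power ρ

end Pool.Agent.Results.MP_79850a_al.ApproximateFeit
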