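import Pool.Agent.DF26.Fin

/-!
# The cyclotomic deficiency of an arbitrary character is at most `χ(1) ^ (5/4)`

Let `χ` be an arbitrary irreducible complex character of a finite group `G` (the character of `ρ`),
and let `n = c(χ)` be its conductor. Then `[ℚ_n : ℚ(χ)] ^ 4 ≤ χ(1) ^ 5`.

Proof: the criterion for the existence of an eigenvalue whose order is divisible by a given part of
`n`, for a random pair (prime, character of the Galois group), together with the submodularity of
`J ↦ log [ℚ(χ) ℚ_{n_J} : ℚ(χ)]`.
-/

set_option autoImplicit false

namespace Pool.Agent.Results.MP_79850a_al.DeficiencyFiveFourths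

open Pool.Agent.FV86

theorem result {G V : Type*} [Group G] [Finite G] [AddCommGroup V] [Module ℂ V]
    [FiniteDimensional ℂ V] (ρ : Representation ℂ G V) [ρ.IsIrreducible] :
    (valueField ρ.character).relfinrank (cyc (conductor ρ.character)) ^ 4 ≤
      Module.finrank ℂ V ^ 5 :=
  Pool.Agent.DF26.deficiency ρ

end Pool.Agent.Results.MP_79850a_al.DeficiencyFiveFourths
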