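import Pool.Agent.CS26.Fin

/-!
# Fields of values of irreducible characters: cyclic Sylow subgroups are harmless

Let `χ` be a non-linear irreducible character of a finite group `G` (the character of the irreducible
representation `ρ`), `n = c(χ)` its conductor and `B = Gal(ℚ(χ)/ℚ)`. Either the assertion of the
question holds for `χ` (some proper subgroup `H` has an irreducible character `ψ` with
`ℚ(χ) ⊆ ℚ(ψ)` and `ψ(1) [ℚ(ψ) : ℚ(χ)] ≤ χ(1)`), together with Feit's conjecture (`G` has an element of
order `n`) and the inequality `[ℚ_n : ℚ(χ)] ≤ χ(1)`, or the following holds for the set `I` of the primes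
`p ∣ n` for which some Sylow `p`-subgroup of `G` is not cyclic: `I` has at least seven elements, `B` has
non-cyclic Sylow subgroups for at least two primes, and for every prime `ℓ` and every homomorphism
`ψ : B → ℂˣ` there is `p ∈ I` such that `ψ` is trivial on `I_p = Gal(ℚ(χ) / ℚ(χ) ∩ ℚ_{n/p})` and
`ℓ ∤ |I_p|`.
-/

set_option autoImplicit false

namespace Pool.Agent.Results.MP_79850a_al.NoncyclicSylows

open Pool.Agent.FV86 Pool.Agent.CS26

theorem result {G V : Type*} [Group G] [Finite G] [AddCommGroup V] [Module ℂ V]
    [FiniteDimensional ℂ V] (ρ : Representation ℂ G V) [ρ.IsIrreducible]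
    (h1 : 1 < Module.finrank ℂ V) :
    (HasSmallCharacter ρ ∧ (∃ g : G, orderOf g = conductor ρ.character) ∧
      (valueField ρ.character).relfinrank (cyc (conductor ρ.character)) ≤ Module.finrank ℂ V) ∨
    ExceptionalFamily (badPrimes G (conductor ρ.character))
      (fun p => fixer (valueField ρ.character) (cyc (conductor ρ.character / p))) :=
  fin_main ρ h1

end Pool.Agent.Results.MP_79850a_al.NoncyclicSylows
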