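import Pool.Agent.CS26.Fin

/-!
# Divisors of the conductor with at most six non-cyclic Sylow subgroups

Let `χ` be an arbitrary irreducible character of a finite group `G` (the character of `ρ`), and let
`d` be a divisor of the conductor `c(χ)` such that the Sylow `p`-subgroups of `G` are cyclic for all
but at most six primes `p ∣ d`. Then some `g ∈ G` has an eigenvalue on `χ` whose order is divisible by
`d`; in particular `G` has an element of order `d`, and `[ℚ(χ) ℚ_d : ℚ(χ)] ≤ χ(1)`.
-/

set_option autoImplicit false

namespace Pool.Agent.Results.MP_79850a_al.SixNoncyclicAtATime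

open Pool.Agent.FV86 Pool.Agent.CS26

theorem result {G V : Type*} [Group G] [Finite G] [AddCommGroup V] [Module ℂ V]
    [FiniteDimensional ℂ V] (ρ : Representation ℂ G V) [ρ.IsIrreducible] {d : ℕ}
    (hd : d ∣ conductor ρ.character) (h6 : (badPrimes G d).card ≤ 6) :
    (∃ g z, Module.End.HasEigenvalue (ρ g) z ∧ d ∣ orderOf z) ∧
      (∃ g : G, orderOf g = d) ∧
      (valueField ρ.character).relfinrank (valueField ρ.character ⊔ cyc d) ≤
        Module.finrank ℂ V :=
  fin_dvd ρ hd h6

end Pool.Agent.Results.MP_79850a_al.SixNoncyclicAtATime
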